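import Pool.Agent.J6H86.LH.Contr

set_option autoImplicit false

/-! Contraction with an explicit bound for the period. -/

namespace Pool.Agent.J6H86.AG

open MvPolynomial Pool.Agent.J6H86.LH

lemma exists_idem {M : Type*} [Monoid M] (x : M) (i j : ℕ) (hij : i < j) (h : x ^ i = x ^ j) :
    ∃ t > 0, t ≤ j ∧ x ^ (2 * t) = x ^ t := by
  obtain ⟨d, hd, rfl⟩ : ∃ d, 0 < d ∧ j = i + d := ⟨j - i, by omega, by omega⟩
  have h1 : ∀ n k, i ≤ k → x ^ (k + n * d) = x ^ k := by
    intro n
    induction n with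
    | zero => intro k _; simp
    | succ n ih =>
      intro k hk
      have h2 : k + (n + 1) * d = (k - i) + (i + d) + n * d := by
        have : (n + 1) * d = n * d + d := by ring
        omega
      rw [h2, ih _ (by omega), pow_add, ← h, ← pow_add]
      congr 1
      omega
  have h3 : d * (i / d) ≤ i := Nat.mul_div_le i d
  have h4 : i < d * (i / d) + d := by
    have := Nat.lt_mul_div_succ i hd
    rw [Nat.mul_succ] at this
    omega
  refine ⟨(i / d + 1) * d, Nat.mul_pos (Nat.succ_pos _) hd, ?_, ?_⟩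
  · have : (i / d + 1) * d = d * (i / d) + d := by ring
    omega
  · rw [two_mul]
    exact h1 (i / d + 1) ((i / d + 1) * d) (by
      have : (i / d + 1) * d = d * (i / d) + d := by ring
      omega)

section Affine

variable {A : Type*} [CommRing A] {σ : Type*} [Fintype σ]

/-- pullback of affine functions, as a linear map -/
noncomputable def affLin (θ : σ → A × (σ → A)) : (A × (σ → A)) →ₗ[A] (A × (σ → A)) where
  toFun := affComp θ
  map_add' p q := by
    unfold affComp
    ext
    · simp only [Prod.fst_add, Prod.snd_add, Pi.add_apply, add_mul, Finset.sum_add_distrib]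
      ring
    · simp only [Prod.snd_add, Pi.add_apply, add_mul, Finset.sum_add_distrib]
  map_smul' c p := by
    unfold affComp
    ext
    · simp only [Prod.smul_fst, Prod.smul_snd, Pi.smul_apply, smul_eq_mul, RingHom.id_apply,
        mul_add, Finset.mul_sum, mul_assoc]
    · simp only [Prod.smul_snd, Pi.smul_apply, smul_eq_mul, RingHom.id_apply,
        Finset.mul_sum, mul_assoc]

/-- powers of a linear map over a finite ring: two of the first `q ^ n + 1` powers agree -/
lemma exists_pow_eq [Finite A] [Nontrivial A] {V : Type*} [AddCommGroup V] [Module A V] [Module.Free A V]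
    [Module.Finite A V] (T : Module.End A V) {n : ℕ} (hn : Module.finrank A V = n) :
    ∃ i j, i < j ∧ j ≤ Nat.card A ^ n ∧ T ^ i = T ^ j := by
  classical
  have := Fintype.ofFinite A
  set χ := LinearMap.charpoly T with hχ
  have hmonic : χ.Monic := LinearMap.charpoly_monic T
  have hdeg : χ.natDegree = n := by rw [hχ, LinearMap.charpoly_natDegree, hn]
  let F : ℕ → (Fin n → A) := fun k i => ((Polynomial.X : Polynomial A) ^ k %ₘ χ).coeff i
  have hcard : (Finset.univ : Finset (Fin n → A)).card < (Finset.range (Nat.card A ^ n + 1)).card := by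
    rw [Finset.card_univ, Fintype.card_fun, Fintype.card_fin, Finset.card_range,
      Nat.card_eq_fintype_card]
    exact Nat.lt_succ_self _
  obtain ⟨i, hi, j, hj, hne, hij⟩ := Finset.exists_ne_map_eq_of_card_lt_of_maps_to hcard
    (f := F) (fun k _ => by simp)
  have hpow : ∀ k, T ^ k = Polynomial.aeval T ((Polynomial.X : Polynomial A) ^ k %ₘ χ) := by
    intro k
    have h1 := Polynomial.modByMonic_add_div ((Polynomial.X : Polynomial A) ^ k) χ
    have h2 := congrArg (Polynomial.aeval T) h1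
    rw [map_add, map_mul, hχ, LinearMap.aeval_self_charpoly, zero_mul, add_zero, map_pow,
      Polynomial.aeval_X] at h2
    exact h2.symm
  have hlt : ∀ k, ((Polynomial.X : Polynomial A) ^ k %ₘ χ).natDegree < n ∨
      ((Polynomial.X : Polynomial A) ^ k %ₘ χ) = 0 := by
    intro k
    by_cases h0 : ((Polynomial.X : Polynomial A) ^ k %ₘ χ) = 0
    · exact Or.inr h0
    · left
      have h1 := Polynomial.degree_modByMonic_lt ((Polynomial.X : Polynomial A) ^ k) hmonic
      have h2 := Polynomial.natDegree_lt_natDegree h0 h1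
      omega
  have heq : ((Polynomial.X : Polynomial A) ^ i %ₘ χ) = ((Polynomial.X : Polynomial A) ^ j %ₘ χ) := by
    ext m
    by_cases hm : m < n
    · exact congrFun hij ⟨m, hm⟩
    · push Not at hm
      have h3 : ∀ k, ((Polynomial.X : Polynomial A) ^ k %ₘ χ).coeff m = 0 := by
        intro k
        rcases hlt k with h | h
        · exact Polynomial.coeff_eq_zero_of_natDegree_lt (by omega)
        · rw [h, Polynomial.coeff_zero]
      rw [h3, h3]
  have hij' : T ^ i = T ^ j := by rw [hpow i, hpow j, heq]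
  rw [Finset.mem_range] at hi hj
  rcases lt_or_gt_of_ne hne with h | h
  · exact ⟨i, j, h, by omega, hij'⟩
  · exact ⟨j, i, h, by omega, hij'.symm⟩

lemma exists_period [Finite A] [Nontrivial A] (θ : σ → A × (σ → A)) :
    ∃ t > 0, t ≤ Nat.card A ^ (Fintype.card σ + 1) ∧ ∀ g, (bind₁ (fun a => aff (θ a)))^[2 * t] g =
      (bind₁ (fun a => aff (θ a)))^[t] g := by
  classical
  set φ : MvPolynomial σ A →ₐ[A] MvPolynomial σ A := bind₁ (fun a => aff (θ a)) with hφ
  obtain ⟨i, j, hlt, hj, hij⟩ := exists_pow_eq (affLin θ) (n := Fintype.card σ + 1) (by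
    rw [Module.finrank_prod, Module.finrank_self, Module.finrank_pi]
    ring)
  obtain ⟨t, ht, htj, h1⟩ := exists_idem (affLin θ) i j hlt hij
  have hpow : ∀ k : ℕ, ∀ g, (φ ^ k) g = φ^[k] g := by
    intro k
    induction k with
    | zero => intro g; simp
    | succ k ih =>
      intro g
      rw [pow_succ, AlgHom.mul_apply, ih, Function.iterate_succ_apply]
  have hlin : ∀ k p, ((affLin θ) ^ k) p = (affComp θ)^[k] p := by
    intro k p
    rw [Module.End.pow_apply]
    rfl
  have h2 : φ ^ (2 * t) = φ ^ t := by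
    apply MvPolynomial.algHom_ext
    intro a
    rw [hpow, hpow, hφ, iterate_aff, iterate_aff, ← hlin, ← hlin, h1]
  refine ⟨t, ht, htj.trans hj, fun g => ?_⟩
  rw [← hpow, ← hpow, h2]

lemma contr_poly (π : A) {q : ℕ} [Finite (A ⧸ Ideal.span {π})] [Nontrivial (A ⧸ Ideal.span {π})]
    (hq : Nat.card (A ⧸ Ideal.span {π}) ≤ q) (p : σ → A × (σ → A)) (h : σ → MvPolynomial σ A) :
    ∃ t > 0, t ≤ q ^ (Fintype.card σ + 1) ∧ ∀ g : MvPolynomial σ A, ∃ g',
      (bind₁ (fun a => aff (p a) + C π * h a))^[2 * t] g -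
        (bind₁ (fun a => aff (p a) + C π * h a))^[t] g = C π * g' := by
  classical
  set q' : A →+* A ⧸ Ideal.span {π} := Ideal.Quotient.mk _ with hq'
  set θ : σ → MvPolynomial σ A := fun a => aff (p a) + C π * h a with hθ
  let p' : σ → (A ⧸ Ideal.span {π}) × (σ → A ⧸ Ideal.span {π}) :=
    fun a => (q' (p a).1, fun b => q' ((p a).2 b))
  have hqπ : q' π = 0 := by
    rw [hq', Ideal.Quotient.eq_zero_iff_mem]
    exact Ideal.subset_span rfl
  have hmap : ∀ a, MvPolynomial.map q' (θ a) = aff (p' a) := by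
    intro a
    simp only [hθ, aff, p', map_add, map_sum, map_mul, map_C, map_X, hqπ, map_zero, zero_mul,
      add_zero]
  have hstep : ∀ g, MvPolynomial.map q' (bind₁ θ g) = bind₁ (fun a => aff (p' a)) (map q' g) := by
    intro g
    rw [map_bind₁]
    congr 2
    funext a
    exact hmap a
  have hiter : ∀ k g, MvPolynomial.map q' ((bind₁ θ)^[k] g) =
      (bind₁ (fun a => aff (p' a)))^[k] (map q' g) := by
    intro k
    induction k with
    | zero => intro g; rfl
    | succ k ih =>
      intro g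
      rw [Function.iterate_succ_apply', hstep, ih, Function.iterate_succ_apply']
  obtain ⟨t, ht, htq, h1⟩ := exists_period p'
  refine ⟨t, ht, htq.trans (Nat.pow_le_pow_left hq _), fun g => ?_⟩
  have h2 : MvPolynomial.map q' ((bind₁ θ)^[2 * t] g - (bind₁ θ)^[t] g) = 0 := by
    rw [map_sub, hiter, hiter, h1, sub_self]
  have h3 := (MvPolynomial.C_dvd_iff_map_hom_eq_zero q' π (fun r => by
    rw [hq', Ideal.Quotient.eq_zero_iff_mem, Ideal.mem_span_singleton]) _).2 h2
  exact h3

omit [Fintype σ] in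
/-- at `2` one gains a factor `4` by doubling the period -/
lemma contr_double (T : MvPolynomial σ A →ₐ[A] MvPolynomial σ A) (t : ℕ)
    (h : ∀ g : MvPolynomial σ A, ∃ g', T^[2 * t] g - T^[t] g = C 2 * g') (g : MvPolynomial σ A) :
    ∃ g', T^[2 * (2 * t)] g - T^[2 * t] g = C 4 * g' := by
  have hpow : ∀ k : ℕ, ∀ g, (T ^ k) g = T^[k] g := by
    intro k
    induction k with
    | zero => intro g; simp
    | succ k ih =>
      intro g
      rw [pow_succ, AlgHom.mul_apply, ih, Function.iterate_succ_apply]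
  have hadd : ∀ k l : ℕ, ∀ g, T^[k + l] g = T^[k] (T^[l] g) := fun k l g =>
    Function.iterate_add_apply _ _ _ _
  have hsub : ∀ k : ℕ, ∀ g g', T^[k] (g - g') = T^[k] g - T^[k] g' := by
    intro k g g'
    rw [← hpow, map_sub, hpow, hpow]
  have hmul : ∀ k : ℕ, ∀ (c : A) g, T^[k] (C c * g) = C c * T^[k] g := by
    intro k c g
    have h0 : (T ^ k) (C c) = C c := (T ^ k).commutes c
    rw [← hpow, ← hpow, map_mul, h0]
  obtain ⟨g₁, h1⟩ := h g
  obtain ⟨g₂, h2⟩ := h g₁
  obtain ⟨g₃, h3⟩ := h (T^[t] g)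
  -- `T^{4t} - T^{2t} = D (D g) + 2 T^t D g`
  refine ⟨g₂ + T^[t] g₁, ?_⟩
  have e1 : T^[2 * (2 * t)] g = T^[2 * t] (T^[2 * t] g) := by
    rw [← hadd]; congr 1; ring
  have e2 : T^[2 * t] g = T^[t] g + C 2 * g₁ := by rw [← h1]; ring
  have e3 : T^[2 * t] (T^[2 * t] g) = T^[2 * t] (T^[t] g) + C 2 * T^[2 * t] g₁ := by
    rw [← hmul, ← hpow (2 * t) (_ * _), ← hpow (2 * t) (T^[t] g), ← map_add, ← e2, hpow]
  have e4 : T^[2 * t] g₁ = T^[t] g₁ + C 2 * g₂ := by rw [← h2]; ring
  have e5 : T^[2 * t] (T^[t] g) = T^[t] (T^[2 * t] g) := by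
    rw [← hadd, ← hadd]; congr 1; ring
  have e6 : T^[t] (T^[2 * t] g) = T^[2 * t] g + C 2 * T^[t] g₁ := by
    conv_lhs => rw [e2]
    rw [← hpow t (_ + _), map_add, hpow, hpow, hmul, ← hadd]
    congr 2
    ring
  rw [e1, e3, e4, e5, e6]
  have e7 : (C 4 : MvPolynomial σ A) = C 2 * C 2 := by rw [← map_mul]; norm_num
  rw [e7]
  have e8 : (C 2 : MvPolynomial σ A) = 2 := map_ofNat _ 2
  rw [e8]
  ring

end Affine

end Pool.Agent.J6H86.AG
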