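import Mathlib

set_option autoImplicit false

/-! Sequences with vanishing differences. -/

namespace Pool.Agent.J6H86.AG

open Finset

lemma diff_zero {B : Type*} [AddCommGroup B] (φ : ℕ → B) (K : ℕ)
    (h : ∀ k ≥ K, (fwdDiff 1)^[k] φ k = 0 ∧ (fwdDiff 1)^[k] φ (k + 1) = 0) :
    ∀ n ≥ K, (fwdDiff 1)^[K] φ n = 0 := by
  intro n
  induction n using Nat.strong_induction_on with
  | _ n ih =>
    intro hn
    -- choose `k` and `n'` with `n' + k = n + K`
    obtain ⟨k, n', hk, hn', hkn, hnk⟩ : ∃ k n', K ≤ k ∧ K ≤ n' ∧ (n' = k ∨ n' = k + 1) ∧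
        n' + (k - K) = n := by
      refine ⟨(n + K) / 2, n + K - (n + K) / 2, by omega, by omega, by omega, by omega⟩
    have h0 : (fwdDiff 1)^[k] φ n' = 0 := by
      rcases hkn with rfl | rfl
      · exact (h _ hk).1
      · exact (h _ hk).2
    have h1 : (fwdDiff 1)^[k] φ n' = (fwdDiff 1)^[k - K] ((fwdDiff 1)^[K] φ) n' := by
      rw [← Function.iterate_add_apply, Nat.sub_add_cancel hk]
    rw [h1, fwdDiff_iter_eq_sum_shift, Finset.sum_range_succ, Finset.sum_eq_zero, zero_add] at h0
    · simpa [hnk] using h0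
    · intro i hi
      rw [Finset.mem_range] at hi
      rw [smul_eq_mul, mul_one, ih (n' + i) (by omega) (by omega), smul_zero]

variable {K : Type*} [Field K] [CharZero K]

lemma exists_poly (φ : ℕ → K) (D : ℕ) (h : ∀ n ≥ D, (fwdDiff 1)^[D] φ n = 0) :
    ∃ P : Polynomial K, ∀ n ≥ D, φ n = P.eval (n : K) := by
  classical
  have hz : ∀ l, D ≤ l → (fwdDiff 1)^[l] φ D = 0 := by
    intro l hl
    have h1 : (fwdDiff 1)^[l] φ D = (fwdDiff 1)^[l - D] ((fwdDiff 1)^[D] φ) D := by
      rw [← Function.iterate_add_apply, Nat.sub_add_cancel hl]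
    rw [h1, fwdDiff_iter_eq_sum_shift]
    refine Finset.sum_eq_zero fun i _ => ?_
    rw [h _ (by omega), smul_zero]
  let P₀ : Polynomial K := ∑ k ∈ range D,
    Polynomial.C ((fwdDiff 1)^[k] φ D / (k.factorial : K)) * descPochhammer K k
  have h0 : ∀ m : ℕ, φ (D + m) = P₀.eval (m : K) := by
    intro m
    have h1 := shift_eq_sum_fwdDiff_iter (h := 1) φ m D
    rw [smul_eq_mul, mul_one] at h1
    rw [h1, Polynomial.eval_finsetSum]
    have h2 : ∀ k, (m.choose k) • (fwdDiff 1)^[k] φ D =
        (Polynomial.C ((fwdDiff 1)^[k] φ D / (k.factorial : K)) * descPochhammer K k).eval (m : K) := by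
      intro k
      rw [Polynomial.eval_mul, Polynomial.eval_C, descPochhammer_eval_eq_descFactorial,
        Nat.descFactorial_eq_factorial_mul_choose, nsmul_eq_mul]
      have : (k.factorial : K) ≠ 0 := by exact_mod_cast k.factorial_ne_zero
      push_cast
      field_simp
    simp only [h2]
    rcases le_total D (m + 1) with hle | hle
    · symm
      refine Finset.sum_subset (fun x hx => ?_) fun k _ hk => ?_
      · rw [Finset.mem_range] at hx ⊢; omega
      · rw [Finset.mem_range, not_lt] at hk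
        rw [hz k hk, zero_div, map_zero, zero_mul, Polynomial.eval_zero]
    · refine Finset.sum_subset (fun x hx => ?_) fun k _ hk => ?_
      · rw [Finset.mem_range] at hx ⊢; omega
      · rw [Finset.mem_range, not_lt] at hk
        rw [← h2, Nat.choose_eq_zero_of_lt (by omega), zero_smul]
  refine ⟨P₀.comp (Polynomial.X - Polynomial.C (D : K)), fun n hn => ?_⟩
  obtain ⟨m, rfl⟩ := Nat.exists_eq_add_of_le hn
  rw [h0, Polynomial.eval_comp]
  congr 1
  simp

end Pool.Agent.J6H86.AG
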