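import Pool.Agent.J6H86.LH.Dim

set_option autoImplicit false

/-! Closures of dimension at most one. -/

namespace Pool.Agent.J6H86.AG

open MvPolynomial Finset Cardinal Pool.Agent.J6H86.LH

variable {K : Type*} [Field K]

/-- a family of generators such that no two of them are algebraically independent -/
lemma trdeg_le_one {D : Type*} [CommRing D] [IsDomain D] [Algebra K D] {τ : Type*} (x : τ → D)
    (hgen : Algebra.adjoin K (Set.range x) = ⊤)
    (h : ∀ a b, ∃ H : MvPolynomial (Fin 2) K, H ≠ 0 ∧ aeval ![x a, x b] H = 0) :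
    Algebra.trdeg K D ≤ 1 := by
  have : Algebra.IsAlgebraic (Algebra.adjoin K (Set.range x)) D := by
    rw [hgen]
    exact ⟨fun d => isAlgebraic_algebraMap (⟨d, trivial⟩ : (⊤ : Subalgebra K D))⟩
  obtain ⟨t, hts, ht⟩ := exists_isTranscendenceBasis_subset (R := K) (A := D) (Set.range x)
  rw [← ht.cardinalMk_eq_trdeg]
  by_contra hcon
  push Not at hcon
  have h3 : (2 : Cardinal) ≤ #t := by
    have h4 : (1 : Cardinal) + 1 ≤ #t := Cardinal.add_one_le_of_lt hcon
    have e : (1 : Cardinal) + 1 = 2 := by norm_num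
    rwa [e] at h4
  obtain ⟨f⟩ : Nonempty (Fin 2 ↪ t) := by
    rw [← Cardinal.lift_mk_le']
    simpa using h3
  have hind : AlgebraicIndependent K fun i : Fin 2 => ((f i : t) : D) := ht.1.comp f f.injective
  obtain ⟨a, ha⟩ := hts (f 0).2
  obtain ⟨b, hb⟩ := hts (f 1).2
  obtain ⟨H, hH, hH0⟩ := h a b
  apply hH
  have e : ![x a, x b] = fun i : Fin 2 => ((f i : t) : D) := by
    funext i
    fin_cases i
    · exact ha
    · exact hb
  rw [e] at hH0
  exact hind (by rw [hH0, map_zero] : aeval _ H = aeval _ (0 : MvPolynomial (Fin 2) K))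

theorem dim_le_one {τ : Type*} [Finite τ] (I : Ideal (MvPolynomial τ K))
    (h : ∀ a b : τ, ∃ H : MvPolynomial (Fin 2) K, H ≠ 0 ∧
      aeval ![(X a : MvPolynomial τ K), X b] H ∈ I) :
    ringKrullDim (MvPolynomial τ K ⧸ I) ≤ 1 := by
  rcases subsingleton_or_nontrivial (MvPolynomial τ K ⧸ I) with hs | hn
  · rw [ringKrullDim_eq_bot_of_subsingleton]
    exact bot_le
  have : Algebra.FiniteType K (MvPolynomial τ K ⧸ I) := inferInstance
  obtain ⟨s, g, hinj, hint⟩ := exists_integral_inj_algHom_of_fg K (MvPolynomial τ K ⧸ I)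
  let alg : Algebra (MvPolynomial (Fin s) K) (MvPolynomial τ K ⧸ I) := g.toRingHom.toAlgebra
  have hInt : Algebra.IsIntegral (MvPolynomial (Fin s) K) (MvPolynomial τ K ⧸ I) := ⟨hint⟩
  have hs : s ≤ 1 := by
    obtain ⟨Q, -, hQ, hQ0⟩ := Ideal.exists_ideal_over_prime_of_isIntegral
      (⊥ : Ideal (MvPolynomial (Fin s) K)) (⊥ : Ideal (MvPolynomial τ K ⧸ I)) (by
        rw [← RingHom.ker_eq_comap_bot]
        exact ((RingHom.injective_iff_ker_eq_bot _).1 hinj).le)
    have := hQ
    let q := Ideal.Quotient.mkₐ K Q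
    have hinj2 : Function.Injective (q.comp g) := by
      refine (injective_iff_map_eq_zero (q.comp g)).2 fun y hy => ?_
      have h00 : g y ∈ Q := Ideal.Quotient.eq_zero_iff_mem.1 hy
      have h0 : y ∈ Ideal.comap (algebraMap (MvPolynomial (Fin s) K) (MvPolynomial τ K ⧸ I)) Q :=
        h00
      rw [hQ0] at h0
      exact h0
    have hind : AlgebraicIndependent K fun i : Fin s => q (g (X i)) := by
      rw [algebraicIndependent_iff_injective_aeval]
      have e : (aeval fun i : Fin s => q (g (X i))) = q.comp g := by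
        ext i
        simp
      rw [e]
      exact hinj2
    have h1 := hind.lift_cardinalMk_le_trdeg
    let x : τ → (MvPolynomial τ K ⧸ I) ⧸ Q := fun a => q (Ideal.Quotient.mkₐ K I (X a))
    have h2 : Algebra.trdeg K ((MvPolynomial τ K ⧸ I) ⧸ Q) ≤ 1 := by
      refine trdeg_le_one x ?_ ?_
      · have e1 : (aeval x : MvPolynomial τ K →ₐ[K] _) = q.comp (Ideal.Quotient.mkₐ K I) := by
          ext a
          simp [x]
        have e2 : Algebra.adjoin K (Set.range x) = (aeval x : MvPolynomial τ K →ₐ[K] _).range :=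
          Algebra.adjoin_range_eq_range_aeval K x
        rw [e2, e1, AlgHom.range_eq_top]
        exact (Ideal.Quotient.mkₐ_surjective K Q).comp (Ideal.Quotient.mkₐ_surjective K I)
      · intro a b
        obtain ⟨H, hH, hHI⟩ := h a b
        refine ⟨H, hH, ?_⟩
        have h3 : q (Ideal.Quotient.mkₐ K I (aeval ![(X a : MvPolynomial τ K), X b] H)) = 0 := by
          have h4 : Ideal.Quotient.mkₐ K I (aeval ![(X a : MvPolynomial τ K), X b] H) = 0 :=
            Ideal.Quotient.eq_zero_iff_mem.2 hHI
          rw [h4, map_zero]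
        have h6 : q (Ideal.Quotient.mkₐ K I (aeval ![(X a : MvPolynomial τ K), X b] H)) =
            aeval ![x a, x b] H := by
          have e1 : (q.comp (Ideal.Quotient.mkₐ K I)).comp
              (aeval ![(X a : MvPolynomial τ K), X b]) =
              (aeval ![x a, x b] : MvPolynomial (Fin 2) K →ₐ[K] _) := by
            ext i
            fin_cases i <;> simp [x]
          rw [← e1]
          rfl
        rw [← h6]
        exact h3
    have h7 := h1.trans (Cardinal.lift_le.2 h2)
    simp only [Cardinal.mk_fin, Cardinal.lift_natCast, Cardinal.lift_one] at h7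
    exact_mod_cast h7
  calc ringKrullDim (MvPolynomial τ K ⧸ I) ≤ ringKrullDim (MvPolynomial (Fin s) K) :=
        dim_le_of_integral
    _ = ringKrullDim K + (s : ℕ) := by
        rw [MvPolynomial.ringKrullDim_of_isNoetherianRing]
        simp
    _ ≤ 1 := by
        rw [ringKrullDim_eq_zero_of_field, zero_add]
        exact_mod_cast hs

/-- two polynomials in one variable are algebraically dependent -/
lemma dep_poly (P Q : Polynomial K) : ∃ H : MvPolynomial (Fin 2) K, H ≠ 0 ∧ aeval ![P, Q] H = 0 := by
  by_contra hcon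
  push Not at hcon
  have hind : AlgebraicIndependent K ![P, Q] := by
    rw [algebraicIndependent_iff]
    intro H hH
    by_contra h0
    exact hcon H h0 hH
  have h1 := hind.lift_cardinalMk_le_trdeg
  rw [Polynomial.trdeg_of_isDomain] at h1
  simp at h1

/-- sequences which are polynomials on the classes modulo `M` are algebraically dependent -/
lemma dep_seq (u w : ℕ → K) (M n₀ : ℕ) (hM : 0 < M)
    (hu : ∀ i, ∃ P : Polynomial K, ∀ n ≥ n₀, u (M * n + i) = P.eval (n : K))
    (hw : ∀ i, ∃ P : Polynomial K, ∀ n ≥ n₀, w (M * n + i) = P.eval (n : K)) :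
    ∃ H : MvPolynomial (Fin 2) K, H ≠ 0 ∧ ∀ n, eval ![u n, w n] H = 0 := by
  choose P hP using hu
  choose Q hQ using hw
  choose H hH hH0 using fun i => dep_poly (P i) (Q i)
  refine ⟨(∏ i ∈ range M, H i) * ∏ n ∈ range (M * n₀), (X 0 - C (u n)), mul_ne_zero ?_ ?_,
    fun n => ?_⟩
  · exact Finset.prod_ne_zero_iff.2 fun i _ => hH i
  · refine Finset.prod_ne_zero_iff.2 fun i _ h0 => ?_
    have h1 := congrArg (coeff (Finsupp.single (0 : Fin 2) 1)) h0
    have hne : ¬ ((0 : Fin 2 →₀ ℕ) = Finsupp.single 0 1) := by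
      intro h2
      have := congrArg (fun f => f (0 : Fin 2)) h2
      simp at this
    rw [coeff_sub, coeff_X, coeff_C, if_neg hne, sub_zero, coeff_zero, if_pos rfl] at h1
    exact one_ne_zero h1
  · rw [map_mul, map_prod, map_prod]
    by_cases hn : n < M * n₀
    · apply mul_eq_zero_of_right
      apply Finset.prod_eq_zero (Finset.mem_range.2 hn)
      simp
    · apply mul_eq_zero_of_left
      push Not at hn
      apply Finset.prod_eq_zero (Finset.mem_range.2 (Nat.mod_lt n hM))
      have e : M * (n / M) + n % M = n := Nat.div_add_mod n M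
      have h2 : n₀ ≤ n / M := by
        rw [Nat.le_div_iff_mul_le hM]
        rwa [mul_comm]
      have h3 := hP (n % M) (n / M) h2
      have h4 := hQ (n % M) (n / M) h2
      rw [e] at h3 h4
      rw [h3, h4]
      have h5 := congrArg (Polynomial.eval ((n / M : ℕ) : K)) (hH0 (n % M))
      rw [Polynomial.eval_zero] at h5
      rw [← h5, ← Polynomial.coe_evalRingHom, ← coe_aeval_eq_eval, RingHom.coe_coe]
      have h6 : (Polynomial.evalRingHom ((n / M : ℕ) : K)).comp
          (aeval ![P (n % M), Q (n % M)] : MvPolynomial (Fin 2) K →ₐ[K] Polynomial K).toRingHom =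
          (aeval ![(P (n % M)).eval ((n / M : ℕ) : K), (Q (n % M)).eval ((n / M : ℕ) : K)] :
            MvPolynomial (Fin 2) K →ₐ[K] K).toRingHom := by
        apply MvPolynomial.ringHom_ext
        · intro r
          simp
        · intro b
          fin_cases b <;> simp
      exact (RingHom.congr_fun h6 _).symm

end Pool.Agent.J6H86.AG
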