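import Pool.Agent.J6H86.AG.Contr

set_option autoImplicit false

/-! Contraction for the orbits of polynomial maps, with an explicit bound for the period. -/

namespace Pool.Agent.J6H86.AG

open MvPolynomial Pool.Agent.J6H86.LH

/-- the contraction ratio -/
def rho (p : ℕ) : ℕ := if p = 2 then 4 else p

/-- the correction of the period -/
def kap (p : ℕ) : ℕ := if p = 2 then 2 else 1

variable {A : Type*} [CommRing A] {σ : Type*}

lemma contr_seq (T : MvPolynomial σ A → MvPolynomial σ A) (t : ℕ) (ρ : A)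
    (h : ∀ g : MvPolynomial σ A, ∃ g', T^[2 * t] g - T^[t] g = C ρ * g')
    (Z : ℕ → σ → A) (hZ : ∀ m g, eval (Z (m + 1)) g = eval (Z m) (T g))
    (g : MvPolynomial σ A) (k : ℕ) : ∃ g' : MvPolynomial σ A,
      ∀ m, (E t)^[k] (fun m => eval (Z m) g) m = ρ ^ k * eval (Z m) g' := by
  have hiter : ∀ k m g, eval (Z (m + k)) g = eval (Z m) (T^[k] g) := by
    intro k
    induction k with
    | zero => intro m g; rfl
    | succ k ih =>
      intro m g
      rw [← add_assoc, hZ, ih, Function.iterate_succ_apply]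
  induction k with
  | zero => exact ⟨g, fun m => by simp⟩
  | succ k ih =>
    obtain ⟨g', hg'⟩ := ih
    obtain ⟨g'', hg''⟩ := h g'
    refine ⟨g'', fun m => ?_⟩
    rw [Function.iterate_succ_apply']
    have h1 : (E t ((E t)^[k] fun m => eval (Z m) g)) m =
      ((E t)^[k] fun m => eval (Z m) g) (m + 2 * t) -
        ((E t)^[k] fun m => eval (Z m) g) (m + t) := rfl
    rw [h1, hg', hg', hiter, hiter, ← mul_sub, ← map_sub, hg'', map_mul, eval_C]
    ring

lemma E_congr {B : Type*} [AddCommGroup B] (t n m : ℕ) (u w : ℕ → B) (h : ∀ m, u m = w m) :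
    (E t)^[n] u m = (E t)^[n] w m := by
  rw [funext h]

lemma alg1 {π x w y s e : A} (h : x + π * w = y + π * s + π ^ 2 * e) :
    y = x + π * (w - s - π * e) := by
  linear_combination -h

lemma alg2 {π x w y s e u : A} (h : x + π * w = y + π * s + π ^ 2 * e) (hy : y = x + π * u) :
    π * w = π * (u + s + π * e) := by
  rw [hy] at h
  linear_combination h

/-- orbits in one residue disc -/
theorem disc [Fintype σ] (p : ℕ) (hp : ∀ a b : A, (p : A) * a = (p : A) * b → a = b)
    [Finite (A ⧸ Ideal.span {(p : A)})] [Nontrivial (A ⧸ Ideal.span {(p : A)})] {q : ℕ}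
    (hq : Nat.card (A ⧸ Ideal.span {(p : A)}) ≤ q) (Ψ : σ → MvPolynomial σ A) (y : ℕ → σ → A)
    (hy : ∀ m a, y (m + 1) a = eval (y m) (Ψ a))
    (hc : ∀ m a, ∃ z, y m a = y 0 a + (p : A) * z) :
    ∃ t > 0, t ≤ kap p * q ^ (Fintype.card σ + 1) ∧ ∀ (G : MvPolynomial σ A) (n m : ℕ), ∃ a : A,
      (E t)^[n] (fun m => eval (y m) G) m = (rho p : A) ^ n * a := by
  classical
  choose z hz using hc
  set π : A := (p : A) with hπdef
  set c := y 0 with hcdef
  have hev : ∀ m (G : MvPolynomial σ A),
      eval (y m) G = eval (z m) (bind₁ (fun b => C (c b) + C π * X b) G) := by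
    intro m G
    have h1 : y m = fun a => eval (z m) (C (c a) + C π * X a) := by
      funext a
      rw [hz m a]
      simp
    conv_lhs => rw [h1]
    rw [← coe_aeval_eq_eval, ← coe_aeval_eq_eval, RingHom.coe_coe, RingHom.coe_coe, aeval_bind₁]
  have htay : ∀ a, ∃ (β : σ → A) (h : MvPolynomial σ A),
      bind₁ (fun b => C (c b) + C π * X b) (Ψ a) =
        C (eval c (Ψ a)) + C π * (∑ b, C (β b) * X b) + C (π ^ 2) * h :=
    fun a => exists_taylor π c (Ψ a)
  choose β h htay using htay
  have hstep : ∀ m a, c a + π * z (m + 1) a =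
      eval c (Ψ a) + π * (∑ b, β a b * z m b) + π ^ 2 * eval (z m) (h a) := by
    intro m a
    rw [← hz, hy, hev, htay]
    simp [map_sum]
  set δ : σ → A := fun a => z 1 a - (∑ b, β a b * z 0 b) - π * eval (z 0) (h a) with hδ
  have hδ' : ∀ a, eval c (Ψ a) = c a + π * δ a := by
    intro a
    have h1 := hstep 0 a
    rw [zero_add] at h1
    exact alg1 h1
  have hzstep : ∀ m a, z (m + 1) a = δ a + ∑ b, β a b * z m b + π * eval (z m) (h a) := by
    intro m a
    exact hp _ _ (alg2 (hstep m a) (hδ' a))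
  let θ : σ → A × (σ → A) := fun a => (δ a, β a)
  set T : MvPolynomial σ A →ₐ[A] MvPolynomial σ A := bind₁ (fun a => aff (θ a) + C π * h a) with hT
  have hZ : ∀ m g, eval (z (m + 1)) g = eval (z m) (T g) := by
    intro m g
    have h1 : z (m + 1) = fun a => eval (z m) (aff (θ a) + C π * h a) := by
      funext a
      rw [hzstep]
      simp only [aff, θ, map_add, map_mul, map_sum, eval_C, eval_X]
    rw [h1, hT]
    rw [← coe_aeval_eq_eval, ← coe_aeval_eq_eval, RingHom.coe_coe, RingHom.coe_coe, aeval_bind₁]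
  obtain ⟨t, ht, htq, H⟩ := contr_poly π hq θ h
  rcases eq_or_ne p 2 with h2 | h2
  · have hπ2 : π = 2 := by
      rw [hπdef, h2]
      exact Nat.cast_ofNat
    have hle : 2 * t ≤ kap p * q ^ (Fintype.card σ + 1) := by
      rw [kap, if_pos h2]
      exact Nat.mul_le_mul_left _ htq
    have hall : ∀ (G : MvPolynomial σ A) (n m : ℕ), ∃ a : A,
        (E (2 * t))^[n] (fun m => eval (y m) G) m = (rho p : A) ^ n * a := by
      intro G n m
      obtain ⟨g', hg'⟩ := contr_seq T (2 * t) 4 (contr_double T t (fun g => by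
        obtain ⟨g', hg'⟩ := H g
        exact ⟨g', by rw [← hπ2]; exact hg'⟩)) z hZ
        (bind₁ (fun b => C (c b) + C π * X b) G) n
      have h4 : ((rho p : ℕ) : A) = 4 := by
        rw [rho, if_pos h2]
        exact Nat.cast_ofNat
      exact ⟨eval (z m) g', (E_congr _ _ _ _ _ (fun m => hev m G)).trans
        ((hg' m).trans (by rw [h4]))⟩
    exact ⟨2 * t, Nat.mul_pos Nat.two_pos ht, hle, hall⟩
  · have hle : t ≤ kap p * q ^ (Fintype.card σ + 1) := by
      rw [kap, if_neg h2, one_mul]
      exact htq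
    have hall : ∀ (G : MvPolynomial σ A) (n m : ℕ), ∃ a : A,
        (E t)^[n] (fun m => eval (y m) G) m = (rho p : A) ^ n * a := by
      intro G n m
      obtain ⟨g', hg'⟩ := contr_seq T t π H z hZ (bind₁ (fun b => C (c b) + C π * X b) G) n
      have h4 : ((rho p : ℕ) : A) = π := by rw [rho, if_neg h2]
      exact ⟨eval (z m) g', (E_congr _ _ _ _ _ (fun m => hev m G)).trans
        ((hg' m).trans (by rw [h4]))⟩
    exact ⟨t, ht, hle, hall⟩

lemma E_scale {B : Type*} [AddCommGroup B] (t : ℕ) (u : ℕ → B) (n m : ℕ) :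
    (E 1)^[n] (fun m => u (t * m)) m = (E t)^[n] u (t * m) := by
  induction n generalizing m with
  | zero => rfl
  | succ n ih =>
    rw [Function.iterate_succ_apply', Function.iterate_succ_apply']
    change ((E 1)^[n] fun m => u (t * m)) (m + 2 * 1) - ((E 1)^[n] fun m => u (t * m)) (m + 1) =
      (E t)^[n] u (t * m + 2 * t) - (E t)^[n] u (t * m + t)
    rw [ih, ih, show t * (m + 2 * 1) = t * m + 2 * t by ring, show t * (m + 1) = t * m + t by ring]

/-- Contraction along the orbit of a polynomial map. -/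
theorem orbit_contr [Fintype σ] (p : ℕ) (hp : ∀ a b : A, (p : A) * a = (p : A) * b → a = b)
    [Finite (A ⧸ Ideal.span {(p : A)})] [Nontrivial (A ⧸ Ideal.span {(p : A)})] {q : ℕ}
    (hq : Nat.card (A ⧸ Ideal.span {(p : A)}) ≤ q) (F : σ → MvPolynomial σ A) (y : ℕ → σ → A)
    (hy : ∀ m a, y (m + 1) a = eval (y m) (F a)) :
    ∃ s M : ℕ, 0 < M ∧ s ≤ q ^ Fintype.card σ ∧ M ≤ kap p * q ^ (2 * Fintype.card σ + 1) ∧
      ∀ (g : MvPolynomial σ A) (n m : ℕ), ∃ a : A,
        (E 1)^[n] (fun m => eval (y (s + M * m)) g) m = (rho p : A) ^ n * a := by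
  classical
  have := Fintype.ofFinite (A ⧸ Ideal.span {(p : A)})
  set N := Fintype.card σ
  -- the residues
  let res : (σ → A) → (σ → A ⧸ Ideal.span {(p : A)}) := fun x a => Ideal.Quotient.mk _ (x a)
  have hcard : (Finset.univ : Finset (σ → A ⧸ Ideal.span {(p : A)})).card <
      (Finset.range (q ^ N + 1)).card := by
    rw [Finset.card_univ, Fintype.card_fun, Finset.card_range]
    rw [Nat.card_eq_fintype_card] at hq
    exact Nat.lt_succ_of_le (Nat.pow_le_pow_left hq _)
  obtain ⟨i, hi, j, hj, hne, hij⟩ := Finset.exists_ne_map_eq_of_card_lt_of_maps_to hcard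
    (f := fun k => res (y k)) (fun k _ => by simp)
  rw [Finset.mem_range] at hi hj
  obtain ⟨s, r, hr, hsr, hres⟩ : ∃ s r, 0 < r ∧ s + r ≤ q ^ N ∧ res (y (s + r)) = res (y s) := by
    rcases lt_or_gt_of_ne hne with h | h
    · exact ⟨i, j - i, by omega, by omega, by rw [show i + (j - i) = j by omega]; exact hij.symm⟩
    · exact ⟨j, i - j, by omega, by omega, by rw [show j + (i - j) = i by omega]; exact hij⟩
  -- iterates
  set T : MvPolynomial σ A →ₐ[A] MvPolynomial σ A := bind₁ F with hT
  have hZ : ∀ m g, eval (y (m + 1)) g = eval (y m) (T g) := by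
    intro m g
    have h1 : y (m + 1) = fun a => eval (y m) (F a) := funext fun a => hy m a
    rw [h1, hT]
    rw [← coe_aeval_eq_eval, ← coe_aeval_eq_eval, RingHom.coe_coe, RingHom.coe_coe, aeval_bind₁]
  have hiter : ∀ k m g, eval (y (m + k)) g = eval (y m) (T^[k] g) := by
    intro k
    induction k with
    | zero => intro m g; rfl
    | succ k ih =>
      intro m g
      rw [← add_assoc, hZ, ih, Function.iterate_succ_apply]
  have hcongr : ∀ (g : MvPolynomial σ A) (x x' : σ → A), res x = res x' →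
      Ideal.Quotient.mk (Ideal.span {(p : A)}) (eval x g) =
        Ideal.Quotient.mk (Ideal.span {(p : A)}) (eval x' g) := by
    intro g x x' h
    have h1 : ∀ x : σ → A, Ideal.Quotient.mk (Ideal.span {(p : A)}) (eval x g) =
        eval₂ (Ideal.Quotient.mk (Ideal.span {(p : A)})) (res x) g := by
      intro x
      rw [← eval₂_id, eval₂_comp_left, RingHom.comp_id]
      rfl
    rw [h1, h1, h]
  have hstay : ∀ m, res (y (s + r * m)) = res (y s) := by
    intro m
    induction m with
    | zero => rfl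
    | succ m ih =>
      rw [← hres]
      funext a
      change Ideal.Quotient.mk _ (y (s + r * (m + 1)) a) = Ideal.Quotient.mk _ (y (s + r) a)
      have h1 := hiter r (s + r * m) (X a)
      have h2 := hiter r s (X a)
      rw [eval_X] at h1 h2
      rw [show s + r * (m + 1) = s + r * m + r by ring, h1, h2]
      exact hcongr _ _ _ ih
  obtain ⟨t, ht, htq, H⟩ := disc p hp hq (fun a => T^[r] (X a)) (fun m => y (s + r * m))
    (fun m a => by
      have h1 := hiter r (s + r * m) (X a)
      rw [eval_X] at h1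
      rw [show s + r * (m + 1) = s + r * m + r by ring, h1])
    (fun m a => by
      have h1 := congrFun (hstay m) a
      have h2 : Ideal.Quotient.mk (Ideal.span {(p : A)}) (y (s + r * m) a) =
        Ideal.Quotient.mk _ (y s a) := h1
      rw [Ideal.Quotient.eq, Ideal.mem_span_singleton] at h2
      obtain ⟨z, hz⟩ := h2
      refine ⟨z, ?_⟩
      rw [mul_zero, add_zero, ← hz]
      ring)
  refine ⟨s, r * t, Nat.mul_pos hr ht, by omega, ?_, fun g n m => ?_⟩
  · calc r * t ≤ q ^ N * (kap p * q ^ (N + 1)) := Nat.mul_le_mul (by omega) htq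
      _ = kap p * q ^ (2 * N + 1) := by ring
  · obtain ⟨a, ha⟩ := H g n (t * m)
    refine ⟨a, ?_⟩
    rw [← ha, ← E_scale]
    refine congrFun (congrArg _ (funext fun m => ?_)) m
    rw [show s + r * (t * m) = s + r * t * m by ring]

/-- the difference operator `E 1` is the difference operator followed by a shift -/
lemma E_one {B : Type*} [AddCommGroup B] (u : ℕ → B) (n m : ℕ) :
    (E 1)^[n] u m = (fwdDiff 1)^[n] u (m + n) := by
  induction n generalizing m with
  | zero => rfl
  | succ n ih =>
    rw [Function.iterate_succ_apply', Function.iterate_succ_apply']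
    change (E 1)^[n] u (m + 2 * 1) - (E 1)^[n] u (m + 1) = _
    rw [ih, ih, fwdDiff, show m + 2 * 1 + n = m + (n + 1) + 1 by ring,
      show m + 1 + n = m + (n + 1) by ring]

end Pool.Agent.J6H86.AG
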