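import Mathlib

set_option autoImplicit false

/-! `S`-integers of a number field: residues modulo a prime number and the product formula. -/

namespace Pool.Agent.J6H86.AG

open NumberField IsDedekindDomain Height Finset

section LocalRing

variable (K : Type*) [Field K] [NumberField K] (p : ℕ) [hp : Fact p.Prime]

/-- the elements with a denominator prime to `p` -/
def Op : Subring K where
  carrier := {x | ∃ b : ℕ, ¬ p ∣ b ∧ IsIntegral ℤ ((b : K) * x)}
  zero_mem' := ⟨1, by
    rw [Nat.dvd_one]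
    exact hp.out.ne_one, by
    rw [mul_zero]
    exact isIntegral_zero⟩
  one_mem' := ⟨1, by
    rw [Nat.dvd_one]
    exact hp.out.ne_one, by
    rw [Nat.cast_one, mul_one]
    exact isIntegral_one⟩
  add_mem' := by
    rintro x y ⟨b, hb, hx⟩ ⟨c, hc, hy⟩
    refine ⟨b * c, fun h => (hp.out.dvd_mul.1 h).elim hb hc, ?_⟩
    have e : ((b * c : ℕ) : K) * (x + y) = (c : K) * ((b : K) * x) + (b : K) * ((c : K) * y) := by
      push_cast
      ring
    rw [e]
    exact ((isIntegral_natCast c).mul hx).add ((isIntegral_natCast b).mul hy)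
  mul_mem' := by
    rintro x y ⟨b, hb, hx⟩ ⟨c, hc, hy⟩
    refine ⟨b * c, fun h => (hp.out.dvd_mul.1 h).elim hb hc, ?_⟩
    have e : ((b * c : ℕ) : K) * (x * y) = ((b : K) * x) * ((c : K) * y) := by
      push_cast
      ring
    rw [e]
    exact hx.mul hy
  neg_mem' := by
    rintro x ⟨b, hb, hx⟩
    refine ⟨b, hb, ?_⟩
    rw [mul_neg]
    exact hx.neg

variable {K} {p}

/-- integers of `K` in the local ring -/
def toOp : 𝓞 K →+* Op K p :=
  (algebraMap (𝓞 K) K).codRestrict (Op K p) fun x => ⟨1, by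
    rw [Nat.dvd_one]
    exact hp.out.ne_one, by
    rw [Nat.cast_one, one_mul]
    exact RingOfIntegers.isIntegral_coe x⟩

lemma res_surj : Function.Surjective
    ((Ideal.Quotient.mk (Ideal.span {(p : Op K p)})).comp (toOp (K := K) (p := p))) := by
  intro y
  obtain ⟨⟨x, b, hb, hx⟩, rfl⟩ := Ideal.Quotient.mk_surjective y
  have hcop : IsCoprime (p : ℤ) (b : ℤ) := Nat.isCoprime_iff_coprime.2
    ((Nat.Prime.coprime_iff_not_dvd hp.out).2 hb)
  obtain ⟨w, u, hwu⟩ := hcop
  let a : 𝓞 K := ⟨(b : K) * x, hx⟩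
  refine ⟨(u : 𝓞 K) * a, ?_⟩
  rw [RingHom.comp_apply, Ideal.Quotient.eq, Ideal.mem_span_singleton]
  refine ⟨-((w : Op K p) * ⟨x, b, hb, hx⟩), Subtype.ext ?_⟩
  have e1 : ((toOp (p := p) ((u : 𝓞 K) * a) : Op K p) : K) = (u : K) * ((b : K) * x) := by
    change algebraMap (𝓞 K) K ((u : 𝓞 K) * a) = _
    rw [map_mul, map_intCast]
    rfl
  have e2 : (w : K) * (p : K) + (u : K) * (b : K) = 1 := by exact_mod_cast congrArg (Int.cast : ℤ → K) hwu
  change ((toOp (p := p) ((u : 𝓞 K) * a) : Op K p) : K) - x = ((p : Op K p) : K) *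
    ((-((w : Op K p) * ⟨x, b, hb, hx⟩) : Op K p) : K)
  rw [e1]
  simp only [Subring.coe_neg, Subring.coe_mul, Subring.coe_natCast, Subring.coe_intCast]
  linear_combination x * e2

omit hp in
lemma card_quot : Nat.card (𝓞 K ⧸ Ideal.span {(p : 𝓞 K)}) = p ^ Module.finrank ℚ K := by
  have h1 : Ideal.absNorm (Ideal.span {(p : 𝓞 K)}) = Nat.card (𝓞 K ⧸ Ideal.span {(p : 𝓞 K)}) := by
    rw [Ideal.absNorm_apply]
    rfl
  rw [← h1, Ideal.absNorm_span_singleton]
  have h5 := Algebra.norm_algebraMap (S := 𝓞 K) (p : ℤ)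
  have h6 : (algebraMap ℤ (𝓞 K)) (p : ℤ) = (p : 𝓞 K) := by simp
  rw [h6] at h5
  rw [h5, Int.natAbs_pow, Int.natAbs_natCast, RingOfIntegers.rank]

lemma finite_quot : Finite (𝓞 K ⧸ Ideal.span {(p : 𝓞 K)}) := by
  apply Nat.finite_of_card_ne_zero
  rw [card_quot]
  exact pow_ne_zero _ hp.out.ne_zero

lemma res_lift : ∃ g : (𝓞 K ⧸ Ideal.span {(p : 𝓞 K)}) →+* (Op K p ⧸ Ideal.span {(p : Op K p)}),
    Function.Surjective g := by
  refine ⟨Ideal.Quotient.lift _ ((Ideal.Quotient.mk (Ideal.span {(p : Op K p)})).comp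
    (toOp (K := K) (p := p))) ?_, ?_⟩
  · intro a ha
    rw [Ideal.mem_span_singleton] at ha
    obtain ⟨c, rfl⟩ := ha
    rw [map_mul, map_natCast]
    have : ((p : ℕ) : Op K p ⧸ Ideal.span {(p : Op K p)}) = 0 := by
      rw [← map_natCast (Ideal.Quotient.mk (Ideal.span {(p : Op K p)})),
        Ideal.Quotient.eq_zero_iff_mem]
      exact Ideal.mem_span_singleton_self _
    rw [this, zero_mul]
  · exact Ideal.Quotient.lift_surjective_of_surjective _ _ res_surj

instance finite_res : Finite (Op K p ⧸ Ideal.span {(p : Op K p)}) := by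
  obtain ⟨g, hg⟩ := res_lift (K := K) (p := p)
  have := finite_quot (K := K) (p := p)
  exact Finite.of_surjective g hg

lemma card_res : Nat.card (Op K p ⧸ Ideal.span {(p : Op K p)}) ≤ p ^ Module.finrank ℚ K := by
  obtain ⟨g, hg⟩ := res_lift (K := K) (p := p)
  have := finite_quot (K := K) (p := p)
  rw [← card_quot]
  exact Nat.card_le_card_of_surjective g hg

instance nontrivial_res : Nontrivial (Op K p ⧸ Ideal.span {(p : Op K p)}) := by
  rw [Ideal.Quotient.nontrivial_iff, Ne, Ideal.eq_top_iff_one, Ideal.mem_span_singleton]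
  rintro ⟨⟨x, b, hb, hx⟩, h⟩
  have h1 : (1 : K) = (p : K) * x := congrArg Subtype.val h
  have hp0 : (p : K) ≠ 0 := by exact_mod_cast hp.out.ne_zero
  have h2 : (b : K) * x = algebraMap ℚ K ((b : ℚ) / p) := by
    rw [map_div₀, map_natCast, map_natCast]
    field_simp
    rw [mul_assoc, mul_comm x, ← h1, mul_one]
  rw [h2] at hx
  have h3 : IsIntegral ℤ ((b : ℚ) / p) := (isIntegral_algebraMap_iff (algebraMap ℚ K).injective).1 hx
  obtain ⟨z, hz⟩ := IsIntegrallyClosed.isIntegral_iff.1 h3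
  have h4 : (z : ℚ) * p = b := by
    have hp0 : (p : ℚ) ≠ 0 := by exact_mod_cast hp.out.ne_zero
    rw [eq_div_iff hp0] at hz
    exact hz
  have h5 : z * (p : ℤ) = b := by exact_mod_cast h4
  apply hb
  rw [← Int.natCast_dvd_natCast]
  exact ⟨z, by rw [← h5]; ring⟩

end LocalRing

section Places

variable {K : Type*} [Field K] [NumberField K]

lemma fp_le_one (P : HeightOneSpectrum (𝓞 K)) (x : K) :
    FinitePlace.mk P x ≤ 1 ↔ P.valuation K x ≤ 1 := by
  have hmono := WithZeroMulInt.toNNReal_strictMono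
    (NumberField.HeightOneSpectrum.one_lt_absNorm_nnreal P)
  have hval : FinitePlace.mk P x = WithZeroMulInt.toNNReal
      (NumberField.HeightOneSpectrum.absNorm_ne_zero P) (P.valuation K x) := by
    rw [FinitePlace.mk_apply, FinitePlace.norm_embedding]
    rfl
  rw [hval, ← NNReal.coe_one, NNReal.coe_le_coe, ← hmono.le_iff_le, map_one]

lemma valuation_eq_one {P : HeightOneSpectrum (𝓞 K)} {a : 𝓞 K} (h : a ∉ P.asIdeal) :
    P.valuation K (a : K) = 1 := by
  refine le_antisymm (P.valuation_le_one a) ?_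
  by_contra hlt
  push Not at hlt
  exact h ((P.valuation_lt_one_iff_mem a).1 hlt)

/-- at the places above `p` the elements of the local ring are integral -/
lemma op_valuation {p : ℕ} [hp : Fact p.Prime] {P : HeightOneSpectrum (𝓞 K)}
    (hP : (p : 𝓞 K) ∈ P.asIdeal) {x : K} (hx : x ∈ Op K p) : P.valuation K x ≤ 1 := by
  obtain ⟨b, hb, hi⟩ := hx
  have hbP : (b : 𝓞 K) ∉ P.asIdeal := by
    intro h
    have hcop : IsCoprime (p : ℤ) (b : ℤ) := Nat.isCoprime_iff_coprime.2
      ((Nat.Prime.coprime_iff_not_dvd hp.out).2 hb)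
    obtain ⟨w, u, hwu⟩ := hcop
    have h1 : (1 : 𝓞 K) = (w : 𝓞 K) * p + (u : 𝓞 K) * b := by
      have := congrArg (Int.cast : ℤ → 𝓞 K) hwu
      push_cast at this
      exact this.symm
    apply P.isPrime.ne_top
    rw [Ideal.eq_top_iff_one, h1]
    exact add_mem (Ideal.mul_mem_left _ _ hP) (Ideal.mul_mem_left _ _ h)
  have h2 := valuation_eq_one hbP
  have h3 : P.valuation K ((b : K) * x) ≤ 1 := P.valuation_le_one (⟨(b : K) * x, hi⟩ : 𝓞 K)
  rw [map_mul] at h3
  have h4 : P.valuation K (b : K) = 1 := by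
    rw [← h2]
    congr 1
  rwa [h4, one_mul] at h3

/-- `S`-integers have a denominator prime to `p` if no place above `p` is in `S` -/
lemma sint_mem {p : ℕ} [hp : Fact p.Prime] (S : Finset (HeightOneSpectrum (𝓞 K)))
    (hS : ∀ v ∈ S, (p : 𝓞 K) ∉ v.asIdeal) {x : K}
    (hx : ∀ v : HeightOneSpectrum (𝓞 K), v ∉ S → v.valuation K x ≤ 1) : x ∈ Op K p := by
  classical
  -- a natural number prime to `p` in each ideal
  have h1 : ∀ v ∈ S, ∃ n : ℕ, ¬ p ∣ n ∧ (n : 𝓞 K) ∈ v.asIdeal := by
    intro v hv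
    have hn0 : Ideal.absNorm v.asIdeal ≠ 0 := by
      have := NumberField.HeightOneSpectrum.one_lt_absNorm v
      omega
    obtain ⟨a, n', hn', he⟩ := Nat.exists_eq_pow_mul_and_not_dvd hn0 p hp.out.ne_one
    refine ⟨n', hn', ?_⟩
    have h2 : ((Ideal.absNorm v.asIdeal : ℕ) : 𝓞 K) ∈ v.asIdeal := Ideal.absNorm_mem _
    rw [he] at h2
    push_cast at h2
    rcases v.isPrime.mem_or_mem h2 with h | h
    · exact absurd (v.isPrime.mem_of_pow_mem _ h) (hS v hv)
    · exact h
  choose! n hn hnv using h1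
  set b : ℕ := ∏ v ∈ S, n v with hb
  have hpb : ¬ p ∣ b := by
    rw [hb, hp.out.prime.dvd_finsetProd_iff]
    rintro ⟨v, hv, h⟩
    exact hn v hv h
  have hbv : ∀ v ∈ S, v.valuation K (b : K) < 1 := by
    intro v hv
    have h2 : (b : 𝓞 K) ∈ v.asIdeal := by
      rw [hb, Nat.cast_prod, ← Finset.mul_prod_erase S _ hv]
      exact Ideal.mul_mem_right _ _ (hnv v hv)
    exact (v.valuation_lt_one_iff_mem (K := K) (b : 𝓞 K)).2 h2
  have hble : ∀ v : HeightOneSpectrum (𝓞 K), v.valuation K (b : K) ≤ 1 := by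
    intro v
    exact v.valuation_le_one (K := K) (b : 𝓞 K)
  have h4 : ∀ v ∈ S, ∃ e : ℕ, ∀ e' ≥ e, v.valuation K ((b : K) ^ e' * x) ≤ 1 := by
    intro v hv
    by_cases hb0 : v.valuation K (b : K) = 0
    · refine ⟨1, fun e' he' => ?_⟩
      rw [map_mul, map_pow, hb0, zero_pow (by omega), zero_mul]
      exact zero_le_one
    have h5 : 1 < (v.valuation K (b : K))⁻¹ := (one_lt_inv₀ (zero_lt_iff.2 hb0)).2 (hbv v hv)
    obtain ⟨e, he⟩ := MulArchimedean.arch (v.valuation K x) h5
    refine ⟨e, fun e' he' => ?_⟩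
    rw [map_mul, map_pow]
    calc v.valuation K (b : K) ^ e' * v.valuation K x
        ≤ v.valuation K (b : K) ^ e * (v.valuation K (b : K))⁻¹ ^ e := by
          exact mul_le_mul' (pow_le_pow_right_of_le_one' (hble v) he') he
      _ = 1 := by
          rw [← mul_pow, mul_inv_cancel₀ hb0, one_pow]
  choose! e he using h4
  refine ⟨b ^ (S.sup e), fun h => hpb (hp.out.dvd_of_dvd_pow h), ?_⟩
  have h6 : ∀ v : HeightOneSpectrum (𝓞 K), v.valuation K ((b : K) ^ (S.sup e) * x) ≤ 1 := by
    intro v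
    by_cases hv : v ∈ S
    · exact he v hv _ (Finset.le_sup hv)
    · rw [map_mul, map_pow]
      exact mul_le_one' (pow_le_one' (hble v) _) (hx v hv)
  obtain ⟨z, hz⟩ := HeightOneSpectrum.mem_integers_of_valuation_le_one K _ h6
  rw [Nat.cast_pow, ← hz]
  exact RingOfIntegers.isIntegral_coe z

/-- the product formula as an inequality -/
lemma product_bound (S : Finset (HeightOneSpectrum (𝓞 K))) {β : K} (hβ : β ≠ 0) {A B : ℝ}
    (hB : 1 ≤ B) (h1 : ∀ w : InfinitePlace K, w β ≤ A)
    (h2 : ∀ v : HeightOneSpectrum (𝓞 K), v ∉ S → v.valuation K β ≤ 1)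
    (h3 : ∀ v ∈ S, FinitePlace.mk v β ≤ B) : 1 ≤ A ^ Module.finrank ℚ K * B ^ S.card := by
  classical
  have hA : 0 ≤ A := by
    obtain ⟨w⟩ : Nonempty (InfinitePlace K) := inferInstance
    exact (apply_nonneg w β).trans (h1 w)
  have e1 : ∏ w : InfinitePlace K, w β ^ w.mult ≤ A ^ Module.finrank ℚ K := by
    calc ∏ w : InfinitePlace K, w β ^ w.mult ≤ ∏ w : InfinitePlace K, A ^ w.mult :=
          Finset.prod_le_prod (fun w _ => pow_nonneg (apply_nonneg w β) _)
            fun w _ => pow_le_pow_left₀ (apply_nonneg w β) (h1 w) _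
      _ = A ^ Module.finrank ℚ K := by
          rw [Finset.prod_pow_eq_pow_sum, InfinitePlace.sum_mult_eq]
  have e2 : ∏ᶠ w : FinitePlace K, w β ≤ B ^ S.card := by
    have hfin : (Function.mulSupport fun w : FinitePlace K => w β).Finite :=
      FinitePlace.hasFiniteMulSupport hβ
    set T : Finset (FinitePlace K) := S.image FinitePlace.mk
    rw [finprod_eq_prod_of_mulSupport_subset (s := hfin.toFinset ∪ T) _ (by
      intro w hw
      rw [Finset.coe_union, Set.Finite.coe_toFinset]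
      exact Or.inl hw)]
    calc ∏ w ∈ hfin.toFinset ∪ T, w β ≤ ∏ w ∈ hfin.toFinset ∪ T, if w ∈ T then B else 1 := by
          refine Finset.prod_le_prod (fun w _ => apply_nonneg w β) fun w _ => ?_
          obtain ⟨v, rfl⟩ : ∃ v, FinitePlace.mk v = w := ⟨w.maximalIdeal, w.mk_maximalIdeal⟩
          by_cases hv : v ∈ S
          · rw [if_pos (Finset.mem_image_of_mem _ hv)]
            exact h3 v hv
          · have : FinitePlace.mk v ∉ T := by
              intro h
              obtain ⟨v', hv', he⟩ := Finset.mem_image.1 h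
              rw [FinitePlace.mk_eq_iff.1 he] at hv'
              exact hv hv'
            rw [if_neg this, fp_le_one]
            exact h2 v hv
      _ = B ^ ((hfin.toFinset ∪ T).filter (· ∈ T)).card := by
          rw [Finset.prod_ite, Finset.prod_const, Finset.prod_const_one, mul_one]
      _ ≤ B ^ S.card := by
          refine pow_le_pow_right₀ hB ?_
          refine (Finset.card_le_card (t := T) fun w hw => ?_).trans Finset.card_image_le
          exact (Finset.mem_filter.1 hw).2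
  have h4 := prod_abs_eq_one hβ
  rw [← h4]
  refine mul_le_mul e1 e2 ?_ (pow_nonneg hA _)
  exact finprod_nonneg fun w => apply_nonneg w β

lemma one_le_prod_real {ι : Type*} (s : Finset ι) (f : ι → ℝ) (h : ∀ i ∈ s, 1 ≤ f i) :
    1 ≤ ∏ i ∈ s, f i :=
  Finset.prod_induction f (1 ≤ ·) (fun _ _ ha hb => one_le_mul_of_one_le_of_one_le ha hb) le_rfl h

lemma le_prod_real {ι : Type*} (s : Finset ι) (f : ι → ℝ) (h : ∀ i ∈ s, 1 ≤ f i) {j : ι}
    (hj : j ∈ s) : f j ≤ ∏ i ∈ s, f i := by
  classical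
  rw [← Finset.mul_prod_erase s f hj]
  exact le_mul_of_one_le_right (zero_le_one.trans (h j hj))
    (one_le_prod_real _ _ fun i hi => h i (Finset.mem_of_mem_erase hi))

lemma fin_part (x : K) : ∃ s : Finset (FinitePlace K), ∀ T : Finset (FinitePlace K), s ⊆ T →
    ∏ᶠ v : FinitePlace K, max (v x) 1 = ∏ v ∈ T, max (v x) 1 := by
  classical
  have hfin : (Function.mulSupport fun w : FinitePlace K => max (w x) 1).Finite := by
    by_cases hx : x = 0
    · refine Set.finite_empty.subset fun w hw => ?_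
      apply hw
      change max (w x) 1 = 1
      rw [hx, map_zero]
      exact max_eq_right zero_le_one
    · refine (FinitePlace.hasFiniteMulSupport hx).subset fun w hw => ?_
      intro h
      apply hw
      have h' : w x = 1 := h
      change max (w x) 1 = 1
      rw [h', max_self]
  refine ⟨hfin.toFinset, fun T hT => ?_⟩
  refine finprod_eq_prod_of_mulSupport_subset _ fun w hw => ?_
  exact hT (hfin.mem_toFinset.2 hw)

lemma inf_le_height (w : InfinitePlace K) (x : K) : w x ≤ mulHeight₁ x := by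
  rw [NumberField.mulHeight₁_eq]
  have h1 : max (w x) 1 ≤ ∏ v : InfinitePlace K, max (v x) 1 ^ v.mult :=
    (le_self_pow₀ (le_max_right _ _) w.mult_ne_zero).trans
      (le_prod_real univ (fun v : InfinitePlace K => max (v x) 1 ^ v.mult)
        (fun v _ => one_le_pow₀ (le_max_right _ _)) (mem_univ w))
  have h2 : 1 ≤ ∏ᶠ v : FinitePlace K, max (v x) 1 := by
    obtain ⟨s, hs⟩ := fin_part x
    rw [hs s subset_rfl]
    exact one_le_prod_real _ _ fun i _ => le_max_right _ _
  calc w x ≤ max (w x) 1 := le_max_left _ _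
    _ ≤ ∏ v : InfinitePlace K, max (v x) 1 ^ v.mult := h1
    _ ≤ _ := le_mul_of_one_le_right (zero_le_one.trans ((le_max_right _ _).trans h1)) h2

lemma fin_le_height (w : FinitePlace K) (x : K) : w x ≤ mulHeight₁ x := by
  classical
  rw [NumberField.mulHeight₁_eq]
  have h1 : 1 ≤ ∏ v : InfinitePlace K, max (v x) 1 ^ v.mult :=
    one_le_prod_real _ _ fun v _ => one_le_pow₀ (le_max_right _ _)
  have h2 : max (w x) 1 ≤ ∏ᶠ v : FinitePlace K, max (v x) 1 := by
    obtain ⟨s, hs⟩ := fin_part x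
    rw [hs (insert w s) (Finset.subset_insert _ _)]
    exact le_prod_real (insert w s) (fun v : FinitePlace K => max (v x) 1)
      (fun i _ => le_max_right _ _) (Finset.mem_insert_self w s)
  calc w x ≤ max (w x) 1 := le_max_left _ _
    _ ≤ ∏ᶠ v : FinitePlace K, max (v x) 1 := h2
    _ ≤ _ := le_mul_of_one_le_left (zero_le_one.trans ((le_max_right _ _).trans h2)) h1

end Places

end Pool.Agent.J6H86.AG
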