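import Pool.Agent.J6H86.AG.Van

set_option autoImplicit false

/-! The gap for orbits of polynomial maps in `S`-integral points. -/

namespace Pool.Agent.J6H86.AG

open NumberField IsDedekindDomain Height Finset Filter
open Pool.Agent.J6H86.LH (E exists_lift eval_coe E_map)

variable {K : Type*} [Field K] [NumberField K] {σ : Type*}

/-- iterates of the pullback -/
lemma eval_iter {A : Type*} [CommRing A] (F : σ → MvPolynomial σ A) (y : ℕ → σ → A)
    (hy : ∀ m a, y (m + 1) a = MvPolynomial.eval (y m) (F a)) (k m : ℕ) (g : MvPolynomial σ A) :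
    MvPolynomial.eval (y (m + k)) g =
      MvPolynomial.eval (y m) ((MvPolynomial.bind₁ F)^[k] g) := by
  have hZ : ∀ m g, MvPolynomial.eval (y (m + 1)) g =
      MvPolynomial.eval (y m) (MvPolynomial.bind₁ F g) := by
    intro m g
    have h1 : y (m + 1) = fun a => MvPolynomial.eval (y m) (F a) := funext fun a => hy m a
    rw [h1]
    rw [← MvPolynomial.coe_aeval_eq_eval, ← MvPolynomial.coe_aeval_eq_eval, RingHom.coe_coe,
      RingHom.coe_coe, MvPolynomial.aeval_bind₁]
  induction k generalizing m g with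
  | zero => rfl
  | succ k ih =>
    rw [← add_assoc, hZ, ih, Function.iterate_succ_apply]

omit [NumberField K] in
/-- a lift of an orbit to a subring -/
lemma lift_orbit (O : Subring K) (F : σ → MvPolynomial σ K) (hF : ∀ a, ∀ c ∈ (F a).coeffs, c ∈ O)
    (y : ℕ → σ → K) (hy0 : ∀ a, y 0 a ∈ O)
    (hy : ∀ m a, y (m + 1) a = MvPolynomial.eval (y m) (F a)) :
    ∃ (F' : σ → MvPolynomial σ O) (y' : ℕ → σ → O),
      (∀ m a, ((y' m a : O) : K) = y m a) ∧
      ∀ m a, y' (m + 1) a = MvPolynomial.eval (y' m) (F' a) := by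
  choose F' hF' using fun a => exists_lift O (F a) (hF a)
  let y' : ℕ → σ → O := fun m => Nat.rec (fun a => ⟨y 0 a, hy0 a⟩)
    (fun _ x a => MvPolynomial.eval x (F' a)) m
  refine ⟨F', y', fun m => ?_, fun m a => rfl⟩
  induction m with
  | zero => intro a; rfl
  | succ m ih =>
    intro a
    have h1 : ((y' (m + 1) a : O) : K) = ((MvPolynomial.eval (y' m) (F' a) : O) : K) := rfl
    rw [h1, eval_coe, hF', hy]
    exact congrArg (fun X => MvPolynomial.eval X (F a)) (funext fun l => ih l)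

variable [Fintype σ]

omit [NumberField K] [Fintype σ] in
/-- the values of a polynomial at lifted points -/
lemma eval_lift {O : Subring K} {G : MvPolynomial σ K} {G' : MvPolynomial σ O}
    (hG : MvPolynomial.map O.subtype G' = G) {x : σ → K} {x' : σ → O} (hx : ∀ a, ((x' a : O) : K) = x a) :
    ((MvPolynomial.eval x' G' : O) : K) = MvPolynomial.eval x G := by
  rw [eval_coe, hG]
  exact congrArg (fun X => MvPolynomial.eval X G) (funext fun l => hx l)

lemma idx {M s m i q t r : ℕ} (hM : 0 < M) (hr : r = M * s - s + i) (e3 : M * q + t = r) :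
    s + M * (m + q) + t = M * (m + s) + i := by
  have h7 : s ≤ M * s := Nat.le_mul_of_pos_left _ hM
  have e : M * (m + s) = M * m + M * s := by ring
  have e2 : M * (m + q) = M * m + M * q := by ring
  omega

/-- **The gap.** -/
theorem main (p : ℕ) [hp : Fact p.Prime] (S : Finset (HeightOneSpectrum (𝓞 K)))
    (hS : ∀ v ∈ S, (p : 𝓞 K) ∉ v.asIdeal) (F : σ → MvPolynomial σ K)
    (hF : ∀ a, ∀ c ∈ (F a).coeffs, SInt S c) (y : ℕ → σ → K) (hy0 : ∀ a, SInt S (y 0 a))
    (hy : ∀ m a, y (m + 1) a = MvPolynomial.eval (y m) (F a)) :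
    ∃ M : ℕ, 0 < M ∧ M ≤ kap p * p ^ (Module.finrank ℚ K * (2 * Fintype.card σ + 1)) ∧
      ∀ G : MvPolynomial σ K, (∀ c ∈ G.coeffs, SInt S c) →
        (∀ᶠ n : ℕ in atTop, logHeight₁ (MvPolynomial.eval (y n) G) ≤
          (Module.finrank ℚ K : ℝ) * n /
            (6 * (p : ℝ) ^ (Module.finrank ℚ K * (2 * Fintype.card σ + 1)) *
              (Module.finrank ℚ K + S.card))) →
        ∃ n₀ : ℕ, ∀ i, ∃ P : Polynomial K, ∀ n ≥ n₀,
          MvPolynomial.eval (y (M * n + i)) G = P.eval (n : K) := by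
  classical
  set d := Module.finrank ℚ K with hd
  set N := Fintype.card σ with hN
  have hd0 : 0 < d := Module.finrank_pos
  -- the orbit is `S`-integral
  obtain ⟨F₁, y₁, hy₁, -⟩ := lift_orbit (OS S) F (fun a c hc => mem_OS.2 (hF a c hc)) y
    (fun a => mem_OS.2 (hy0 a)) hy
  -- the orbit in the local ring
  obtain ⟨F', y', hy', hyF⟩ := lift_orbit (Op K p) F (fun a c hc => sint_mem S hS (hF a c hc)) y
    (fun a => sint_mem S hS (hy0 a)) hy
  have hpK : (p : K) ≠ 0 := by exact_mod_cast hp.out.ne_zero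
  obtain ⟨s, M, hM, hs, hMq, H⟩ := orbit_contr p (fun a b h => by
    have h1 : (p : K) * (a : K) = (p : K) * (b : K) := congrArg Subtype.val h
    exact Subtype.ext (mul_left_cancel₀ hpK h1)) (card_res (K := K) (p := p)) F' y' hyF
  rw [← pow_mul] at hs hMq
  refine ⟨M, hM, hMq, fun G hG hgrow => ?_⟩
  obtain ⟨G₁, hG₁⟩ := exists_lift (OS S) G fun c hc => mem_OS.2 (hG c hc)
  obtain ⟨G', hG'⟩ := exists_lift (Op K p) G fun c hc => sint_mem S hS (hG c hc)
  set g : ℕ → K := fun n => MvPolynomial.eval (y n) G with hg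
  have hyS : ∀ m, SInt S (g m) := by
    intro m
    rw [← mem_OS, hg]
    change MvPolynomial.eval (y m) G ∈ OS S
    rw [← eval_lift hG₁ (hy₁ m)]
    exact Subtype.property _
  set Q : ℕ := p ^ (d * (2 * N + 1)) with hQ
  have hQ1 : 1 ≤ Q := Nat.one_le_pow _ _ hp.out.pos
  have hsQ : s ≤ Q := hs.trans (Nat.pow_le_pow_right hp.out.pos (Nat.mul_le_mul_left _ (by omega)))
  have hk1 : 1 ≤ kap p := by
    unfold kap
    split_ifs <;> norm_num
  -- contraction over `K`
  have hcontr : ∀ i n m, ∃ z ∈ Op K p, (fwdDiff 1)^[n] (fun m => g (s + M * m + i)) (m + n) =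
      (rho p : K) ^ n * z := by
    intro i n m
    obtain ⟨z, hz⟩ := H ((MvPolynomial.bind₁ F')^[i] G') n m
    refine ⟨z, z.2, ?_⟩
    rw [← E_one]
    have h1 := E_map (Op K p).subtype 1
      (fun m => MvPolynomial.eval (y' (s + M * m)) ((MvPolynomial.bind₁ F')^[i] G')) n m
    have h2 : (fun m => g (s + M * m + i)) = fun m => (Op K p).subtype
        (MvPolynomial.eval (y' (s + M * m)) ((MvPolynomial.bind₁ F')^[i] G')) := by
      funext m
      rw [← eval_iter F' y' hyF]
      exact (eval_lift hG' (hy' _)).symm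
    rw [h2, h1, hz]
    change (((rho p : Op K p) ^ n * z : Op K p) : K) = _
    push_cast
    rfl
  obtain ⟨n₁, hn₁⟩ := eventually_atTop.1 hgrow
  set c : ℝ := (d : ℝ) / (6 * (p : ℝ) ^ (d * (2 * N + 1)) * (d + S.card)) with hc
  have hdR : (0 : ℝ) < d := by exact_mod_cast hd0
  have hQR : ((Q : ℕ) : ℝ) = (p : ℝ) ^ (d * (2 * N + 1)) := by
    rw [hQ]; push_cast; rfl
  have hQ0 : (0 : ℝ) < Q := by exact_mod_cast hQ1
  have hc0 : 0 ≤ c := by
    rw [hc, ← hQR]
    positivity
  have hcQ : ((d : ℝ) + S.card) * c = d / (6 * Q) := by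
    rw [hc, ← hQR]
    have : (0 : ℝ) < (d : ℝ) + S.card := by positivity
    field_simp
  -- vanishing of the differences
  have hvan : ∀ i < M, ∀ k ≥ max 40 n₁, ∀ n', (n' = k ∨ n' = k + 1) →
      (fwdDiff 1)^[k] (fun m => g (s + M * m + i)) n' = 0 := by
    intro j hj k hk n' hn'
    have hk30 : 40 ≤ k := le_trans (le_max_left _ _) hk
    have hkn : n₁ ≤ k := le_trans (le_max_right _ _) hk
    obtain ⟨z, hz, he⟩ := hcontr j k (n' - k)
    rw [show n' - k + k = n' by omega] at he
    refine vanish p S hS _ (fun n => hyS _) k n' (c * (s + M * (2 * k + 2))) (by positivity)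
      (fun i hi => ?_) z hz he ?_
    · have h1 : n₁ ≤ s + M * (n' + i) + j := by
        have : n' + i ≤ M * (n' + i) := Nat.le_mul_of_pos_left _ hM
        omega
      refine (hn₁ _ h1).trans ?_
      have h2 : ((s + M * (n' + i) + j : ℕ) : ℝ) ≤ s + M * (2 * k + 2) := by
        have : s + M * (n' + i) + j ≤ s + M * (2 * k + 2) := by
          have h3 := Nat.mul_le_mul_left M (show n' + i ≤ 2 * k + 1 by omega)
          have h4 : M * (2 * k + 2) = M * (2 * k + 1) + M := by ring
          omega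
        exact_mod_cast this
      calc (d : ℝ) * ((s + M * (n' + i) + j : ℕ) : ℝ) /
            (6 * (p : ℝ) ^ (d * (2 * N + 1)) * (d + S.card))
          = c * ((s + M * (n' + i) + j : ℕ) : ℝ) := by rw [hc]; ring
        _ ≤ _ := mul_le_mul_of_nonneg_left h2 hc0
    · have h3 : ((s : ℝ) + M * (2 * k + 2)) ≤ kap p * Q * (2 * k + 3) := by
        have h4 : s + M * (2 * k + 2) ≤ kap p * Q * (2 * k + 3) := by
          calc s + M * (2 * k + 2) ≤ kap p * Q + kap p * Q * (2 * k + 2) := by
                refine Nat.add_le_add (hsQ.trans (Nat.le_mul_of_pos_left _ hk1)) ?_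
                exact Nat.mul_le_mul_right _ hMq
            _ = kap p * Q * (2 * k + 3) := by ring
        exact_mod_cast h4
      calc ((d : ℝ) + S.card) * (c * (s + M * (2 * k + 2)))
          = (d / (6 * Q)) * (s + M * (2 * k + 2)) := by rw [← mul_assoc, hcQ]
        _ ≤ (d / (6 * Q)) * (kap p * Q * (2 * k + 3)) :=
            mul_le_mul_of_nonneg_left h3 (by positivity)
        _ = d * ((kap p : ℝ) * (2 * k + 3) / 6) := by
            field_simp
        _ < d * (k * Real.log (rho p / 2)) := mul_lt_mul_of_pos_left (log_ineq p k hk30) hdR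
  -- polynomial behaviour
  have hpoly : ∀ i < M, ∃ P : Polynomial K, ∀ n ≥ max 40 n₁,
      g (s + M * n + i) = P.eval (n : K) := by
    intro i hi
    exact exists_poly (fun m => g (s + M * m + i)) (max 40 n₁) (diff_zero _ _ fun k hk =>
      ⟨hvan i hi k hk k (Or.inl rfl), hvan i hi k hk (k + 1) (Or.inr rfl)⟩)
  refine ⟨max 40 n₁ + s, fun i => ?_⟩
  -- `M * (m + s) + i = s + M * m + (M * s - s + i)`
  set r := M * s - s + i with hr
  obtain ⟨R, hR⟩ := hpoly (r % M) (Nat.mod_lt _ hM)
  refine ⟨R.comp (Polynomial.X - Polynomial.C (s : K) + Polynomial.C ((r / M : ℕ) : K)),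
    fun n hn => ?_⟩
  obtain ⟨m, rfl⟩ : ∃ m, n = m + s := ⟨n - s, by omega⟩
  have h5 := hR (m + r / M) (le_trans (show max 40 n₁ ≤ m by omega) (Nat.le_add_right _ _))
  have h6 : s + M * (m + r / M) + r % M = M * (m + s) + i :=
    idx hM hr (Nat.div_add_mod r M)
  rw [h6] at h5
  change g (M * (m + s) + i) = _
  rw [h5, Polynomial.eval_comp]
  congr 1
  simp

end Pool.Agent.J6H86.AG
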