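import Mathlib

set_option autoImplicit false

/-! An integral orbit whose growth rate is exponentially small in the number of variables. -/

namespace Pool.Agent.J6H86.AG

open MvPolynomial

/-- the value of a bit -/
def bit01 (b : Bool) : ℤ := if b then 1 else 0

/-- the polynomial which is `1` at the point `b` of the cube and `0` at the other points -/
noncomputable def ind {N : ℕ} (b : Fin N → Bool) : MvPolynomial (Option (Fin N)) ℤ :=
  ∏ i, if b i then X (some i) else 1 - X (some i)

lemma eval_ind {N : ℕ} (b c : Fin N → Bool) (y : Option (Fin N) → ℤ)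
    (hy : ∀ i, y (some i) = bit01 (c i)) : eval y (ind b) = if b = c then 1 else 0 := by
  have h1 : eval y (ind b) = ∏ i, if b i = c i then (1 : ℤ) else 0 := by
    rw [ind, map_prod]
    refine Finset.prod_congr rfl fun i _ => ?_
    cases hb : b i <;> cases hc : c i <;> simp [hy, hc, bit01]
  rw [h1]
  by_cases h : b = c
  · rw [if_pos h, h]
    simp
  · rw [if_neg h]
    obtain ⟨i, hi⟩ := Function.ne_iff.1 h
    exact Finset.prod_eq_zero (Finset.mem_univ i) (if_neg hi)

theorem sharp (N : ℕ) : ∃ (F : Option (Fin N) → MvPolynomial (Option (Fin N)) ℤ)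
    (y : ℕ → Option (Fin N) → ℤ), (∀ n a, y (n + 1) a = eval (y n) (F a)) ∧
      (∀ n i, y n (some i) = 0 ∨ y n (some i) = 1) ∧ ∀ n, y n none = 2 ^ (n / 2 ^ N) := by
  classical
  have hcard : Fintype.card (Fin N → Bool) = 2 ^ N := by simp
  let E : (Fin N → Bool) ≃ Fin (2 ^ N) := Fintype.equivFinOfCardEq hcard
  have hpos : 0 < 2 ^ N := by positivity
  let st : ℕ → (Fin N → Bool) := fun k => E.symm ⟨k % 2 ^ N, Nat.mod_lt _ hpos⟩
  let nxt : (Fin N → Bool) → (Fin N → Bool) := fun b => st ((E b : ℕ) + 1)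
  have hnxt : ∀ k, nxt (st k) = st (k + 1) := by
    intro k
    change E.symm ⟨((E (E.symm ⟨k % 2 ^ N, Nat.mod_lt _ hpos⟩) : ℕ) + 1) % 2 ^ N, _⟩ =
      E.symm ⟨(k + 1) % 2 ^ N, _⟩
    congr 1
    rw [Fin.mk.injEq, Equiv.apply_symm_apply]
    change (k % 2 ^ N + 1) % 2 ^ N = (k + 1) % 2 ^ N
    rw [Nat.mod_add_mod]
  have hst : ∀ k l, st k = st l ↔ k % 2 ^ N = l % 2 ^ N := by
    intro k l
    change E.symm _ = E.symm _ ↔ _
    rw [E.symm.injective.eq_iff, Fin.mk.injEq]
  let F : Option (Fin N) → MvPolynomial (Option (Fin N)) ℤ := fun a =>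
    a.elim (X none * (1 + ind (st (2 ^ N - 1)))) fun i => ∑ b, C (bit01 (nxt b i)) * ind b
  let y : ℕ → Option (Fin N) → ℤ := fun n a => a.elim (2 ^ (n / 2 ^ N)) fun i => bit01 (st n i)
  refine ⟨F, y, fun n a => ?_, fun n i => ?_, fun n => rfl⟩
  · have hy : ∀ i, y n (some i) = bit01 (st n i) := fun i => rfl
    cases a with
    | none =>
      change 2 ^ ((n + 1) / 2 ^ N) = eval (y n) (X none * (1 + ind (st (2 ^ N - 1))))
      rw [map_mul, map_add, eval_X, map_one, eval_ind _ _ _ hy]
      change _ = 2 ^ (n / 2 ^ N) * _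
      rw [Nat.succ_div]
      by_cases h : 2 ^ N ∣ n + 1
      · have h1 : st (2 ^ N - 1) = st n := by
          rw [hst, Nat.mod_eq_of_lt (by omega)]
          obtain ⟨c, hc⟩ := h
          obtain ⟨c', rfl⟩ : ∃ c', c = c' + 1 := ⟨c - 1, by
            have : c ≠ 0 := by
              rintro rfl
              omega
            omega⟩
          have h2 : n = (2 ^ N - 1) + 2 ^ N * c' := by
            have e : 2 ^ N * (c' + 1) = 2 ^ N * c' + 2 ^ N := by ring
            omega
          rw [h2, Nat.add_mul_mod_self_left, Nat.mod_eq_of_lt (by omega)]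
        rw [if_pos h, if_pos h1, pow_succ]
        ring
      · have h1 : st (2 ^ N - 1) ≠ st n := by
          rw [Ne, hst, Nat.mod_eq_of_lt (by omega)]
          intro h2
          apply h
          have h3 := Nat.div_add_mod n (2 ^ N)
          exact ⟨n / 2 ^ N + 1, by
            have e : 2 ^ N * (n / 2 ^ N + 1) = 2 ^ N * (n / 2 ^ N) + 2 ^ N := by ring
            omega⟩
        rw [if_neg h, if_neg h1]
        ring
    | some i =>
      change bit01 (st (n + 1) i) = eval (y n) (∑ b, C (bit01 (nxt b i)) * ind b)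
      rw [map_sum, Finset.sum_eq_single (st n)]
      · rw [map_mul, eval_C, eval_ind _ _ _ hy, if_pos rfl, mul_one, hnxt]
      · intro b _ hb
        rw [map_mul, eval_ind _ _ _ hy, if_neg hb, mul_zero]
      · intro h
        exact absurd (Finset.mem_univ _) h
  · change bit01 (st n i) = 0 ∨ bit01 (st n i) = 1
    unfold bit01
    split_ifs
    · exact Or.inr rfl
    · exact Or.inl rfl

end Pool.Agent.J6H86.AG
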