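import Pool.Agent.J6H86.AG.Int
import Pool.Agent.J6H86.AG.Diff
import Pool.Agent.J6H86.AG.Disc
import Pool.Agent.J6H86.LH.Cert
import Pool.Agent.J6H86.LH.Local

set_option autoImplicit false

/-! Differences of slowly growing sequences vanish. -/

namespace Pool.Agent.J6H86.AG

open NumberField IsDedekindDomain Height Finset

variable {K : Type*} [Field K] [NumberField K]

/-- `x` is an `S`-integer -/
def SInt (S : Finset (HeightOneSpectrum (𝓞 K))) (x : K) : Prop :=
  ∀ v : HeightOneSpectrum (𝓞 K), v ∉ S → v.valuation K x ≤ 1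

/-- the subring of `S`-integers -/
noncomputable def OS (S : Finset (HeightOneSpectrum (𝓞 K))) : Subring K :=
  ((S : Set (HeightOneSpectrum (𝓞 K))).integer K).toSubring

lemma mem_OS {S : Finset (HeightOneSpectrum (𝓞 K))} {x : K} : x ∈ OS S ↔ SInt S x := by
  unfold OS SInt
  rw [Subalgebra.mem_toSubring]
  exact Iff.rfl

lemma valuation_nat {p : ℕ} {v : HeightOneSpectrum (𝓞 K)} (h : (p : 𝓞 K) ∉ v.asIdeal) :
    v.valuation K (p : K) = 1 := by
  have h2 := valuation_eq_one h
  rw [← h2]
  congr 1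

omit [NumberField K] in
lemma rho_notMem {p : ℕ} {v : HeightOneSpectrum (𝓞 K)} (h : (p : 𝓞 K) ∉ v.asIdeal) :
    ((rho p : ℕ) : 𝓞 K) ∉ v.asIdeal := by
  unfold rho
  split_ifs with h2
  · subst h2
    intro h4
    apply h
    have e : ((4 : ℕ) : 𝓞 K) = ((2 : ℕ) : 𝓞 K) ^ 2 := by norm_num
    rw [e] at h4
    exact v.isPrime.mem_of_pow_mem _ h4
  · exact h

lemma rho_pos {p : ℕ} [hp : Fact p.Prime] : 0 < rho p := by
  unfold rho
  split_ifs
  · norm_num
  · exact hp.out.pos

lemma fp_int_le (v : HeightOneSpectrum (𝓞 K)) (n : ℤ) : FinitePlace.mk v (n : K) ≤ 1 := by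
  rw [fp_le_one]
  have := v.valuation_le_one (K := K) (n : 𝓞 K)
  have e : (((n : 𝓞 K) : 𝓞 K) : K) = (n : K) := by simp
  rwa [← e]

omit [NumberField K] in
lemma inf_neg_one (w : InfinitePlace K) : w (-1 : K) = 1 := by
  have h1 : w (-1 : K) = w.1 (-1) := rfl
  rw [h1, w.1.map_neg, map_one]

omit [NumberField K] in
lemma inf_nat (w : InfinitePlace K) (n : ℕ) : w (n : K) = n := by
  rw [← InfinitePlace.norm_embedding_eq, map_natCast, Complex.norm_natCast]

/-- A difference which is divisible by a high power of `p` vanishes if the heights are small. -/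
theorem vanish (p : ℕ) [hp : Fact p.Prime] (S : Finset (HeightOneSpectrum (𝓞 K)))
    (hS : ∀ v ∈ S, (p : 𝓞 K) ∉ v.asIdeal) (φ : ℕ → K) (hφ : ∀ n, SInt S (φ n))
    (k n' : ℕ) (L : ℝ) (hL : 0 ≤ L) (hh : ∀ i ≤ k, logHeight₁ (φ (n' + i)) ≤ L)
    (a : K) (ha : a ∈ Op K p) (hα : (fwdDiff 1)^[k] φ n' = (rho p : K) ^ k * a)
    (hlt : ((Module.finrank ℚ K : ℝ) + S.card) * L <
      Module.finrank ℚ K * (k * Real.log (rho p / 2))) : (fwdDiff 1)^[k] φ n' = 0 := by
  classical
  set d := Module.finrank ℚ K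
  have hρ0 : (0 : ℝ) < rho p := by exact_mod_cast rho_pos (p := p)
  have hρK : (rho p : K) ≠ 0 := by exact_mod_cast (rho_pos (p := p)).ne'
  by_contra hne
  have ha0 : a ≠ 0 := by
    rintro rfl
    rw [mul_zero] at hα
    exact hne hα
  -- multiplicative form of the height bound
  have hmul : ∀ i ≤ k, mulHeight₁ (φ (n' + i)) ≤ Real.exp L := by
    intro i hi
    have h1 := hh i hi
    rw [logHeight₁_eq_log_mulHeight₁] at h1
    exact (Real.log_le_iff_le_exp (mulHeight₁_pos _)).1 h1
  have hsum : (fwdDiff 1)^[k] φ n' =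
      ∑ i ∈ range (k + 1), (((-1 : ℤ) ^ (k - i) * (k.choose i : ℤ) : ℤ) : K) * φ (n' + i) := by
    rw [fwdDiff_iter_eq_sum_shift]
    refine Finset.sum_congr rfl fun i _ => ?_
    rw [zsmul_eq_mul, smul_eq_mul, mul_one]
  -- the value is an `S`-integer
  have hαS : SInt S ((fwdDiff 1)^[k] φ n') := by
    rw [← mem_OS, hsum]
    refine sum_mem fun i _ => mul_mem (intCast_mem _ _) (mem_OS.2 (hφ _))
  have hφe : a = (fwdDiff 1)^[k] φ n' / (rho p : K) ^ k := by
    rw [hα]
    field_simp
  have hbound := product_bound S (β := a) ha0 (A := (2 / rho p) ^ k * Real.exp L)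
    (B := Real.exp L) (Real.one_le_exp hL) ?_ ?_ ?_
  · have h1 := Real.log_nonneg hbound
    rw [Real.log_mul (by positivity) (by positivity), Real.log_pow, Real.log_pow,
      Real.log_mul (by positivity) (by positivity), Real.log_pow, Real.log_exp] at h1
    have h2 : Real.log (2 / rho p) = - Real.log (rho p / 2) := by
      rw [← Real.log_inv, inv_div]
    rw [h2] at h1
    nlinarith
  · intro w
    rw [hφe, map_div₀, map_pow]
    have hw1 : w ((fwdDiff 1)^[k] φ n') ≤ 2 ^ k * Real.exp L := by
      rw [hsum]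
      calc w (∑ i ∈ range (k + 1), (((-1 : ℤ) ^ (k - i) * (k.choose i : ℤ) : ℤ) : K) * φ (n' + i))
          ≤ ∑ i ∈ range (k + 1), w ((((-1 : ℤ) ^ (k - i) * (k.choose i : ℤ) : ℤ) : K) * φ (n' + i)) :=
            w.1.sum_le _ _
        _ ≤ ∑ i ∈ range (k + 1), (k.choose i : ℝ) * Real.exp L := by
            refine Finset.sum_le_sum fun i hi => ?_
            rw [map_mul]
            have e1 : w ((((-1 : ℤ) ^ (k - i) * (k.choose i : ℤ) : ℤ) : K)) = (k.choose i : ℝ) := by
              rw [Int.cast_mul, map_mul, Int.cast_pow, map_pow, Int.cast_neg, Int.cast_one,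
                inf_neg_one, one_pow, one_mul, Int.cast_natCast]
              exact inf_nat w _
            rw [e1]
            refine mul_le_mul_of_nonneg_left ?_ (Nat.cast_nonneg _)
            exact (inf_le_height w _).trans (hmul i (by rw [mem_range] at hi; omega))
        _ = 2 ^ k * Real.exp L := by
            rw [← Finset.sum_mul]
            congr 1
            have := Nat.sum_range_choose k
            exact_mod_cast this
    have hw2 : w (rho p : K) = (rho p : ℝ) := inf_nat w _
    rw [hw2, div_le_iff₀ (by positivity), div_pow]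
    calc w ((fwdDiff 1)^[k] φ n') ≤ 2 ^ k * Real.exp L := hw1
      _ = 2 ^ k / (rho p : ℝ) ^ k * Real.exp L * (rho p : ℝ) ^ k := by
          field_simp
  · intro v hv
    by_cases hpv : (p : 𝓞 K) ∈ v.asIdeal
    · exact op_valuation hpv ha
    · rw [hφe, map_div₀, map_pow, valuation_nat (rho_notMem hpv), one_pow, div_one]
      exact hαS v hv
  · intro v hv
    have hpv := hS v hv
    have hval1 : FinitePlace.mk v (rho p : K) = 1 := by
      refine le_antisymm ?_ ?_
      · rw [fp_le_one, valuation_nat (rho_notMem hpv)]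
      · have h3 : FinitePlace.mk v ((rho p : K)⁻¹) ≤ 1 := by
          rw [fp_le_one, map_inv₀, valuation_nat (rho_notMem hpv), inv_one]
        rw [map_inv₀] at h3
        have h4 : 0 < FinitePlace.mk v (rho p : K) := by
          refine lt_of_le_of_ne (apply_nonneg _ _) fun h => ?_
          exact hρK ((map_eq_zero (FinitePlace.mk v)).1 h.symm)
        exact (inv_le_one₀ h4).1 h3
    rw [hφe, map_div₀, map_pow, hval1, one_pow, div_one, hsum]
    refine Finset.sum_induction _ (fun x => FinitePlace.mk v x ≤ Real.exp L) ?_ ?_ ?_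
    · intro x y hx hy
      exact (FinitePlace.add_le _ _ _).trans (max_le hx hy)
    · rw [map_zero]
      positivity
    · intro i hi
      rw [map_mul]
      calc _ ≤ 1 * FinitePlace.mk v (φ (n' + i)) :=
            mul_le_mul_of_nonneg_right (fp_int_le v _) (apply_nonneg _ _)
        _ = FinitePlace.mk v (φ (n' + i)) := one_mul _
        _ ≤ _ := (fin_le_height _ _).trans (hmul i (by rw [mem_range] at hi; omega))

lemma log_ineq (p : ℕ) [hp : Fact p.Prime] (k : ℕ) (hk : 40 ≤ k) :
    (kap p : ℝ) * (2 * k + 3) / 6 < k * Real.log (rho p / 2) := by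
  have hk' : (40 : ℝ) ≤ k := by exact_mod_cast hk
  unfold kap rho
  split_ifs with h2
  · have h3 : Real.log (((4 : ℕ) : ℝ) / 2) = Real.log 2 := by norm_num
    rw [h3]
    have := Real.log_two_gt_d9
    push_cast
    nlinarith
  · have hp3 : 3 ≤ p := by
      have := hp.out.two_le
      omega
    have h3 : (2 / 5 : ℝ) < Real.log ((p : ℝ) / 2) := by
      rw [Real.lt_log_iff_exp_lt (by positivity)]
      have h4 : Real.exp (2 / 5) < 3 / 2 := by
        have h5 : Real.exp (2 / 5) ^ 5 < (3 / 2) ^ 5 := by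
          rw [← Real.exp_nat_mul]
          have e : ((5 : ℕ) : ℝ) * (2 / 5) = ((2 : ℕ) : ℝ) * 1 := by norm_num
          rw [e, Real.exp_nat_mul]
          have := Real.exp_one_lt_d9
          have h6 : 0 < Real.exp 1 := Real.exp_pos 1
          nlinarith
        exact lt_of_pow_lt_pow_left₀ 5 (by norm_num) h5
      have h7 : (3 : ℝ) ≤ p := by exact_mod_cast hp3
      linarith
    push_cast
    nlinarith

end Pool.Agent.J6H86.AG
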